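import Pool.Agent.U498.TA.Asm

/-!
Project TA, job TB2: Euler's scheme for homeomorphisms of type B.
-/

set_option autoImplicit false

open Set Filter Topology Metric Function
open scoped NNReal

namespace Pool.Agent.U901.TA

open Pool.Agent.U498.TA

theorem single_eq (i : Fin 3) (c : ℝ) :
    (EuclideanSpace.single i c : E 3) = c • EuclideanSpace.single i (1 : ℝ) := by
  ext j
  by_cases h : j = i
  · subst h; simp
  · simp [h]

theorem norm_u (i : Fin 3) : ‖(EuclideanSpace.single i (1 : ℝ) : E 3)‖ = 1 := by simp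

/-- the basic estimate -/
theorem est {v : E 3 → ℝ} {K : ℝ≥0} (hL : LipschitzWith K v) (u : E 3) (hu : ‖u‖ = 1)
    (x x' : E 3) (s s' : ℝ) (h0 : 0 ≤ s') (h1 : s' ≤ 1) :
    (1 - (K : ℝ)) * ‖x - x'‖ ≤
      ‖(x + (s * v x) • u) - (x' + (s' * v x') • u)‖ + |s - s'| * |v x| := by
  have e1 : x - x' = ((x + (s * v x) • u) - (x' + (s' * v x') • u)) -
      (s * v x - s' * v x') • u := by
    rw [sub_smul]; abel
  have e2 : ‖x - x'‖ ≤ ‖(x + (s * v x) • u) - (x' + (s' * v x') • u)‖ +
      |s * v x - s' * v x'| := by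
    calc ‖x - x'‖ = ‖((x + (s * v x) • u) - (x' + (s' * v x') • u)) -
          (s * v x - s' * v x') • u‖ := by rw [← e1]
      _ ≤ _ := norm_sub_le _ _
      _ = _ := by rw [norm_smul, hu, mul_one, Real.norm_eq_abs]
  have e3 : |v x - v x'| ≤ K * ‖x - x'‖ := by
    have := hL.dist_le_mul x x'
    rwa [Real.dist_eq, dist_eq_norm] at this
  have e4 : |s * v x - s' * v x'| ≤ |s - s'| * |v x| + K * ‖x - x'‖ := by
    have e5 : s * v x - s' * v x' = (s - s') * v x + s' * (v x - v x') := by ring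
    rw [e5]
    refine (abs_add_le _ _).trans ?_
    rw [abs_mul, abs_mul, abs_of_nonneg h0]
    have : s' * |v x - v x'| ≤ 1 * |v x - v x'| :=
      mul_le_mul_of_nonneg_right h1 (abs_nonneg _)
    linarith
  linarith

theorem exists_sol {v : E 3 → ℝ} {K : ℝ≥0} (hK : K < 1) (hL : LipschitzWith K v) (u : E 3)
    (hu : ‖u‖ = 1) (s : ℝ) (h0 : 0 ≤ s) (h1 : s ≤ 1) (y : E 3) :
    ∃ x, x + (s * v x) • u = y := by
  have hc : ContractingWith K (fun x : E 3 => y - (s * v x) • u) := by
    refine ⟨hK, LipschitzWith.of_dist_le_mul (fun x x' => ?_)⟩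
    have e3 : |v x' - v x| ≤ K * ‖x - x'‖ := by
      have := hL.dist_le_mul x' x
      rw [Real.dist_eq, dist_eq_norm, norm_sub_rev] at this
      exact this
    rw [dist_eq_norm, dist_eq_norm]
    have e : (y - (s * v x) • u) - (y - (s * v x') • u) = (s * (v x' - v x)) • u := by
      rw [mul_sub, sub_smul]; abel
    rw [e, norm_smul, hu, mul_one, Real.norm_eq_abs, abs_mul, abs_of_nonneg h0]
    have : s * |v x' - v x| ≤ 1 * |v x' - v x| := mul_le_mul_of_nonneg_right h1 (abs_nonneg _)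
    linarith
  have h := hc.fixedPoint_isFixedPt
  refine ⟨ContractingWith.fixedPoint _ hc, ?_⟩
  have h' : y - (s * v (ContractingWith.fixedPoint _ hc)) • u = ContractingWith.fixedPoint _ hc := h
  exact (sub_eq_iff_eq_add.mp h').symm

theorem t_TB2 : S_TB2 := by
  intro hTB i v K hK hL g hg R ε hε
  set u : E 3 := EuclideanSpace.single i (1 : ℝ) with hu0
  have hu : ‖u‖ = 1 := norm_u i
  have hsing : ∀ c : ℝ, (EuclideanSpace.single i c : E 3) = c • u := single_eq i
  have hK1 : (0 : ℝ) < 1 - K := by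
    have : (K : ℝ) < 1 := by exact_mod_cast hK
    linarith
  -- the clamp
  let cl : ℝ → ℝ := fun s => max 0 (min s 1)
  have hcl0 : ∀ s, 0 ≤ cl s := fun s => le_max_left _ _
  have hcl1 : ∀ s, cl s ≤ 1 := fun s => max_le zero_le_one (min_le_right _ _)
  have hclc : Continuous cl := continuous_const.max (continuous_id.min continuous_const)
  have hcle : ∀ s, 0 ≤ s → s ≤ 1 → cl s = s := by
    intro s h0 h1
    show max 0 (min s 1) = s
    rw [min_eq_left h1, max_eq_right h0]
  have hex : ∀ (s : ℝ) (y : E 3), ∃ x, x + (cl s * v x) • u = y := fun s y =>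
    exists_sol hK hL u hu (cl s) (hcl0 s) (hcl1 s) y
  choose S hS using hex
  have huniq : ∀ (s : ℝ) (x : E 3), S s (x + (cl s * v x) • u) = x := by
    intro s x
    have h := est hL u hu (S s (x + (cl s * v x) • u)) x (cl s) (cl s) (hcl0 s) (hcl1 s)
    rw [hS, sub_self, sub_self, norm_zero, abs_zero, zero_mul, add_zero] at h
    have h2 : ‖S s (x + (cl s * v x) • u) - x‖ ≤ 0 := by
      by_contra hcon
      push Not at hcon
      have := mul_pos hK1 hcon
      linarith
    exact sub_eq_zero.mp (norm_le_zero_iff.mp h2)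
  have hSlip : ∀ (s : ℝ) (y y' : E 3), (1 - (K : ℝ)) * ‖S s y - S s y'‖ ≤ ‖y - y'‖ := by
    intro s y y'
    have h := est hL u hu (S s y) (S s y') (cl s) (cl s) (hcl0 s) (hcl1 s)
    rw [hS, hS, sub_self, abs_zero, zero_mul, add_zero] at h
    exact h
  have hScont : Continuous (fun p : ℝ × E 3 => S p.1 p.2) := by
    rw [continuous_iff_continuousAt]
    rintro ⟨s, y⟩
    rw [ContinuousAt, tendsto_iff_dist_tendsto_zero]
    have hlim : Tendsto (fun p : ℝ × E 3 => (‖y - p.2‖ + |cl s - cl p.1| * |v (S s y)|) /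
        (1 - (K : ℝ))) (𝓝 (s, y)) (𝓝 0) := by
      have hc : Continuous (fun p : ℝ × E 3 => (‖y - p.2‖ + |cl s - cl p.1| * |v (S s y)|) /
        (1 - (K : ℝ))) := by fun_prop
      have := hc.tendsto (s, y)
      simpa using this
    refine squeeze_zero (fun _ => dist_nonneg) (fun p => ?_) hlim
    rw [le_div_iff₀ hK1, dist_comm, dist_eq_norm, mul_comm]
    have h := est hL u hu (S s y) (S p.1 p.2) (cl s) (cl p.1) (hcl0 p.1) (hcl1 p.1)
    rw [hS, hS] at h
    exact h
  let w : ℝ × E 3 → ℝ := fun p => v (S p.1 p.2)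
  have hw : Continuous w := hL.continuous.comp hScont
  set L : ℝ := K / (1 - K) with hLdef
  have hL0 : 0 ≤ L := div_nonneg K.2 hK1.le
  have hwL : ∀ (s : ℝ) (y y' : E 3), |w (s, y) - w (s, y')| ≤ L * ‖y - y'‖ := by
    intro s y y'
    have h1 : |v (S s y) - v (S s y')| ≤ K * ‖S s y - S s y'‖ := by
      have := hL.dist_le_mul (S s y) (S s y')
      rwa [Real.dist_eq, dist_eq_norm] at this
    have h2 : ‖S s y - S s y'‖ ≤ ‖y - y'‖ / (1 - K) := by
      rw [le_div_iff₀ hK1, mul_comm]
      exact hSlip s y y'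
    calc |w (s, y) - w (s, y')| ≤ K * ‖S s y - S s y'‖ := h1
      _ ≤ K * (‖y - y'‖ / (1 - K)) := mul_le_mul_of_nonneg_left h2 K.2
      _ = L * ‖y - y'‖ := by rw [hLdef]; ring
  set R1 : ℝ := R + (|v 0| + R) with hR1
  have hbd : ∀ x : E 3, ‖x‖ ≤ R → ∀ s, 0 ≤ s → s ≤ 1 → ‖x + (s * v x) • u‖ ≤ R1 := by
    intro x hx s h0 h1
    have e3 : |v x| ≤ |v 0| + ‖x‖ := by
      have h := hL.dist_le_mul x 0
      rw [Real.dist_eq, dist_eq_norm, sub_zero] at h
      have h2 : |v x| ≤ |v 0| + |v x - v 0| := by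
        have := abs_add_le (v 0) (v x - v 0)
        rwa [add_sub_cancel] at this
      have h3 : (K : ℝ) * ‖x‖ ≤ 1 * ‖x‖ :=
        mul_le_mul_of_nonneg_right (by linarith) (norm_nonneg _)
      linarith
    refine (norm_add_le _ _).trans ?_
    rw [norm_smul, hu, mul_one, Real.norm_eq_abs, abs_mul, abs_of_nonneg h0]
    have : s * |v x| ≤ 1 * |v x| := mul_le_mul_of_nonneg_right h1 (abs_nonneg _)
    rw [hR1]
    linarith
  set η : ℝ := min ε 1 / Real.exp L with hη
  have hη0 : 0 < η := div_pos (lt_min hε one_pos) (Real.exp_pos _)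
  have hηe : η * Real.exp L = min ε 1 := by
    rw [hη]; field_simp
  obtain ⟨t₀, ht₀, hT⟩ := hTB i w hw (R1 + 1) η hη0
  obtain ⟨N, hN⟩ := exists_nat_gt (max (1 / t₀) 0)
  have hNpos : (0 : ℝ) < N := lt_of_le_of_lt (le_max_right _ _) hN
  have hNt : (1 : ℝ) / N ≤ t₀ := by
    have : 1 / t₀ < N := lt_of_le_of_lt (le_max_left _ _) hN
    rw [div_lt_iff₀ ht₀] at this
    rw [div_le_iff₀ hNpos]
    linarith
  set t : ℝ := 1 / N with ht
  have ht0 : 0 < t := by rw [ht]; positivity
  have htN : (N : ℝ) * t = 1 := by rw [ht]; field_simp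
  have hexp : ∀ j : ℕ, j ≤ N → (1 + t * L) ^ j ≤ Real.exp L := by
    intro j hj
    have h1 : 1 ≤ 1 + t * L := by
      have := mul_nonneg ht0.le hL0
      linarith
    calc (1 + t * L) ^ j ≤ (1 + t * L) ^ N := pow_le_pow_right₀ h1 hj
      _ ≤ (Real.exp (t * L)) ^ N := by
          refine pow_le_pow_left₀ (by linarith) ?_ N
          have := Real.add_one_le_exp (t * L)
          linarith
      _ = Real.exp L := by
          rw [← Real.exp_nat_mul]
          congr 1
          rw [← mul_assoc, htN, one_mul]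
  have main : ∀ j : ℕ, j ≤ N → ∃ k ∈ Subgroup.closure TypeB, ∀ x : E 3, ‖x‖ ≤ R →
      ‖k x - (x + ((j * t) * v x) • u)‖ ≤ η * (j * t) * (1 + t * L) ^ j := by
    intro j
    induction j with
    | zero =>
      intro _
      refine ⟨1, one_mem _, fun x _ => ?_⟩
      have : (1 : E 3 ≃ₜ E 3) x = x := rfl
      rw [this]
      simp
    | succ j ih =>
      intro hj
      obtain ⟨k, hk, hk2⟩ := ih (by omega)
      have hs0 : 0 ≤ (j : ℝ) * t := by positivity
      have hs1 : (j : ℝ) * t ≤ 1 := by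
        rw [← htN]
        exact mul_le_mul_of_nonneg_right (by exact_mod_cast (by omega : j ≤ N)) ht0.le
      obtain ⟨a, ha, ha2⟩ := hT t ht0.le hNt (j * t) hs0 hs1
      refine ⟨a * k, mul_mem ha hk, fun x hx => ?_⟩
      have hkx := hk2 x hx
      set z : E 3 := x + ((j * t) * v x) • u with hz
      set Y : E 3 := k x with hY
      have hzR : ‖z‖ ≤ R1 := hbd x hx _ hs0 hs1
      have hle1 : η * (j * t) * (1 + t * L) ^ j ≤ 1 := by
        calc η * (j * t) * (1 + t * L) ^ j ≤ η * 1 * Real.exp L := by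
              have hp : 0 ≤ (1 + t * L) ^ j := by positivity
              have h1 := hexp j (by omega)
              gcongr
          _ = min ε 1 := by rw [mul_one, hηe]
          _ ≤ 1 := min_le_right _ _
      have hYR : ‖Y‖ ≤ R1 + 1 := by
        calc ‖Y‖ = ‖z + (Y - z)‖ := by congr 1; abel
          _ ≤ ‖z‖ + ‖Y - z‖ := norm_add_le _ _
          _ ≤ R1 + 1 := add_le_add hzR (hkx.trans hle1)
      have haY := ha2 Y hYR
      rw [hsing] at haY
      have hwz : w (j * t, z) = v x := by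
        show v (S (j * t) z) = v x
        have := huniq (j * t) x
        rw [hcle _ hs0 hs1] at this
        rw [hz, this]
      have hnext : x + (((j + 1 : ℕ) * t) * v x) • u = z + (t * w (j * t, z)) • u := by
        rw [hwz, hz, add_assoc, ← add_smul]
        congr 2
        push_cast
        ring
      have hmulapp : (a * k) x = a Y := rfl
      rw [hmulapp, hnext]
      have hdec : a Y - (z + (t * w (j * t, z)) • u) =
          (a Y - (Y + (t * w (j * t, Y)) • u)) + ((Y - z) +
            (t * (w (j * t, Y) - w (j * t, z))) • u) := by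
        rw [mul_sub, sub_smul]; abel
      rw [hdec]
      have h1 : ‖(t * (w (j * t, Y) - w (j * t, z))) • u‖ ≤ t * (L * ‖Y - z‖) := by
        rw [norm_smul, hu, mul_one, Real.norm_eq_abs, abs_mul, abs_of_pos ht0]
        exact mul_le_mul_of_nonneg_left (hwL _ _ _) ht0.le
      have h2 : ‖(a Y - (Y + (t * w (j * t, Y)) • u)) + ((Y - z) +
            (t * (w (j * t, Y) - w (j * t, z))) • u)‖ ≤ η * t + (‖Y - z‖ + t * (L * ‖Y - z‖)) :=
        (norm_add_le _ _).trans (add_le_add haY ((norm_add_le _ _).trans (add_le_add le_rfl h1)))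
      refine h2.trans ?_
      have h3 : (1 + t * L) * ‖Y - z‖ ≤ (1 + t * L) * (η * (j * t) * (1 + t * L) ^ j) :=
        mul_le_mul_of_nonneg_left hkx (by positivity)
      have h4 : (1 : ℝ) ≤ (1 + t * L) ^ (j + 1) := by
        apply one_le_pow₀
        have := mul_nonneg ht0.le hL0
        linarith
      have h5 : η * t * 1 ≤ η * t * (1 + t * L) ^ (j + 1) :=
        mul_le_mul_of_nonneg_left h4 (by positivity)
      calc η * t + (‖Y - z‖ + t * (L * ‖Y - z‖)) = η * t * 1 + (1 + t * L) * ‖Y - z‖ := by ring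
        _ ≤ η * t * (1 + t * L) ^ (j + 1) + (1 + t * L) * (η * (j * t) * (1 + t * L) ^ j) :=
            add_le_add h5 h3
        _ = η * ((j + 1 : ℕ) * t) * (1 + t * L) ^ (j + 1) := by push_cast; ring
  obtain ⟨k, hk, hk2⟩ := main N le_rfl
  refine ⟨k, hk, fun p hp => ?_⟩
  have h := hk2 p hp
  rw [htN, one_mul, mul_one] at h
  rw [hg, hsing]
  refine h.trans ?_
  calc η * (1 + t * L) ^ N ≤ η * Real.exp L :=
        mul_le_mul_of_nonneg_left (hexp N le_rfl) hη0.le
    _ = min ε 1 := hηe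
    _ ≤ ε := min_le_left _ _

end Pool.Agent.U901.TA
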